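import Mathlib

open Pointwise

namespace Pool.Agent.Results.MP_a61939_al.PhaseTransitions

/-- The group `G = ℤ × ℤ/2ℤ`, written additively. -/
abbrev G : Type := ℤ × ZMod 2

/-- `x` is a sum of exactly `r` elements of `A ∪ (-A)`. -/
def IsSumOf (A : Set G) (r : ℕ) (x : G) : Prop :=
  ∃ f : Fin r → G, (∀ i, f i ∈ A ∨ -f i ∈ A) ∧ ∑ i, f i = x

/-- `A` is a generating set: every element is a finite sum of elements of `A ∪ (-A)`. -/
def Generates (A : Set G) : Prop := ∀ x : G, ∃ r : ℕ, IsSumOf A r x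

/-- The sphere `S_A(r)`: the elements of word length exactly `r`. -/
def sphere (A : Set G) (r : ℕ) : Set G := {x | IsSumOf A r x ∧ ∀ q < r, ¬ IsSumOf A q x}

/-- `A` is an infinite generating set with transition set `S`, which is the sphere of radius `r`:
`S = S_A(r)` is nonempty and all larger spheres are empty.  The phase transition of `A` is then
`(r, |S|)`. -/
def HasTransition (A : Set G) (r : ℕ) (S : Set G) : Prop :=
  A.Infinite ∧ Generates A ∧ sphere A r = S ∧ S.Nonempty ∧ ∀ q, r < q → sphere A q = ∅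

/-- `S` is thin: for any finitely many pairs `(n, t)` with `n` a nonzero integer and `t ∈ G` there
is an `x ∈ G` such that no `n • x + t` lies in `S`.  (Finite sets are thin.) -/
def Thin (S : Set G) : Prop :=
  ∀ P : Set (ℤ × G), P.Finite → (∀ p ∈ P, p.1 ≠ 0) → ∃ x : G, ∀ p ∈ P, p.1 • x + p.2 ∉ S

/-- `S` is nonempty, symmetric, does not contain `0`, and every element of `G` is a sum of two
elements of the complement of `S`. -/
def CoBasis (S : Set G) : Prop :=
  S.Nonempty ∧ (0 : G) ∉ S ∧ (∀ x ∈ S, -x ∈ S) ∧ ∀ g : G, ∃ x ∉ S, ∃ y ∉ S, x + y = g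

/-! ### iterated sumsets of a symmetric set containing `0` -/

section gen
variable {M : Type*} [AddCommGroup M]

lemma nsmul_mono_of_zero_mem {B : Set M} (h0 : (0 : M) ∈ B) {i j : ℕ} (hij : i ≤ j) :
    i • B ⊆ j • B := by
  induction j, hij using Nat.le_induction with
  | base => exact subset_rfl
  | succ n hn ih =>
    intro x hx
    rw [succ_nsmul]
    exact ⟨x, ih hx, 0, h0, by simp⟩

lemma zero_mem_nsmul {B : Set M} (h0 : (0 : M) ∈ B) (j : ℕ) : (0 : M) ∈ j • B := by
  have := nsmul_mono_of_zero_mem h0 (Nat.zero_le j)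
  apply this
  simp

/-- Decomposition of an element of `j • (B ∪ {u, -u})`. -/
lemma decomp {B : Set M} {u x : M} {j : ℕ} (hx : x ∈ j • (B ∪ {u, -u})) :
    ∃ (b : M) (i : ℕ) (e : ℤ), b ∈ i • B ∧ i + e.natAbs ≤ j ∧ x = b + e • u := by
  induction j generalizing x with
  | zero =>
    refine ⟨0, 0, 0, by simp, by simp, ?_⟩
    simpa using hx
  | succ j ih =>
    rw [succ_nsmul] at hx
    obtain ⟨y, hy, z, hz, rfl⟩ := hx
    obtain ⟨b, i, e, hb, hie, rfl⟩ := ih hy
    rcases hz with hz | hz | hz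
    · refine ⟨b + z, i + 1, e, ?_, by omega, by dsimp only; abel⟩
      rw [succ_nsmul]
      exact ⟨b, hb, z, hz, rfl⟩
    · subst hz
      refine ⟨b, i, e + 1, hb, by omega, ?_⟩
      dsimp only
      rw [add_smul, one_smul]; abel
    · rw [Set.mem_singleton_iff] at hz
      subst hz
      refine ⟨b, i, e - 1, hb, by omega, ?_⟩
      dsimp only
      rw [sub_smul, one_smul]; abel

/-- invariance condition -/
def Inv (B : Set M) (F : Set M) (h l : ℕ) (y : M) : Prop :=
  ∀ (t : ℤ) (j : ℕ), j + t.natAbs * l ≤ h → ∀ b ∈ j • B, b + t • y ∉ F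

lemma inv_last {B F : Set M} {h : ℕ} {y : M} (hI : Inv B F h 1 y) :
    ∀ x ∈ h • (B ∪ {y, -y}), x ∉ F := by
  intro x hx
  obtain ⟨b, i, e, hb, hie, rfl⟩ := decomp hx
  exact hI e i (by omega) b hb

lemma finite_nsmul {B : Set M} (hB : B.Finite) (i : ℕ) : (i • B : Set M).Finite := by
  induction i with
  | zero => simp
  | succ n ih => rw [succ_nsmul]; exact ih.add hB

end gen

/-- For a nonzero integer and a finite set of targets, only finitely many solutions in `G`. -/
lemma finite_preimage (n : ℤ) (hn : n ≠ 0) (T : Set G) (hT : T.Finite) :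
    {x : G | n • x ∈ T}.Finite := by
  have : {x : G | n • x ∈ T} = ⋃ t ∈ T, {x : G | n • x = t} := by
    ext x; simp
  rw [this]
  refine hT.biUnion ?_
  intro t _
  refine Set.Finite.subset (s := (({t.1 / n} : Set ℤ) ×ˢ (Set.univ : Set (ZMod 2))))
    ((Set.finite_singleton _).prod Set.finite_univ) ?_
  rintro ⟨a, b⟩ hx
  have h1 : n * a = t.1 := by
    have hx' : n • ((a, b) : G) = t := hx
    have := congrArg Prod.fst hx'
    simpa using this
  simp only [Set.mem_prod, Set.mem_singleton_iff, Set.mem_univ, and_true]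
  rw [← h1, Int.mul_ediv_cancel_left _ hn]

lemma thin_of_finite {F : Set G} (hF : F.Finite) : Thin F := by
  intro P hP hne
  have hbad : (⋃ p ∈ P, {x : G | p.1 • x ∈ (fun f => f - p.2) '' F}).Finite :=
    hP.biUnion fun p hp => finite_preimage p.1 (hne p hp) _ (hF.image _)
  obtain ⟨x, hx⟩ := hbad.exists_notMem
  refine ⟨x, fun p hp hmem => hx ?_⟩
  simp only [Set.mem_iUnion]
  exact ⟨p, hp, p.1 • x + p.2, hmem, by simp⟩

lemma inv_step {B F : Set G} (hB : B.Finite) (hF : Thin F) {h l : ℕ} (hl : 1 ≤ l) {y : G}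
    (hI : Inv B F h (l + 1) y) :
    ∃ x : G, Inv (B ∪ {x, -x}) F h l (y - x) := by
  let P : Set (ℤ × G) := ⋃ (i ∈ Finset.range (h + 1)), ⋃ (t ∈ Finset.Icc (-(h : ℤ)) h),
    ⋃ (e ∈ (Finset.Icc (-(h : ℤ)) h).filter (fun e => e ≠ t)),
      (fun b : G => (e - t, b + t • y)) '' (i • B)
  have hP : P.Finite := by
    refine Set.Finite.biUnion (Finset.finite_toSet _) fun i _ => ?_
    refine Set.Finite.biUnion (Finset.finite_toSet _) fun t _ => ?_
    refine Set.Finite.biUnion (Finset.finite_toSet _) fun e he => ?_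
    exact (finite_nsmul hB i).image _
  have hPne : ∀ p ∈ P, p.1 ≠ 0 := by
    intro p hp
    simp only [P, Set.mem_iUnion] at hp
    obtain ⟨i, -, t, -, e, he, b, -, rfl⟩ := hp
    exact sub_ne_zero.2 (Finset.mem_filter.1 he).2
  obtain ⟨x, hx⟩ := hF P hP hPne
  refine ⟨x, ?_⟩
  intro t j hj b' hb' hmem
  obtain ⟨b, i, e, hb, hie, rfl⟩ := decomp hb'
  have hrew : b + e • x + t • (y - x) = (e - t) • x + (b + t • y) := by
    rw [smul_sub, sub_smul]; abel
  rw [hrew] at hmem
  have htl : t.natAbs ≤ t.natAbs * l := Nat.le_mul_of_pos_right _ hl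
  by_cases het : e = t
  · subst het
    rw [sub_self, zero_smul, zero_add] at hmem
    refine hI e i ?_ b hb hmem
    rw [mul_add, mul_one]; omega
  · refine hx (e - t, b + t • y) ?_ hmem
    simp only [P, Set.mem_iUnion]
    exact ⟨i, by simp only [Finset.mem_range]; omega, t, by simp only [Finset.mem_Icc]; omega, e,
      by simp only [Finset.mem_filter, Finset.mem_Icc]; exact ⟨by omega, het⟩, b, hb, rfl⟩

/-- The extension lemma. -/
lemma extend_aux {h : ℕ} {F : Set G} (hF : Thin F) (l : ℕ) :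
    ∀ (B : Set G) (y : G), B.Finite → (0 : G) ∈ B → (∀ b ∈ B, -b ∈ B) →
      Inv B F h (l + 1) y →
      ∃ B' : Set G, B ⊆ B' ∧ B'.Finite ∧ (∀ b ∈ B', -b ∈ B') ∧ (∀ x ∈ h • B', x ∉ F) ∧
        y ∈ (l + 1) • B' := by
  induction l with
  | zero =>
    intro B y hB h0 hs hI
    refine ⟨B ∪ {y, -y}, Set.subset_union_left, hB.union (by simp), ?_, inv_last hI, ?_⟩
    · rintro b (hb | hb | hb)
      · exact Or.inl (hs b hb)
      · subst hb; exact Or.inr (Or.inr rfl)
      · rw [Set.mem_singleton_iff] at hb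
        subst hb; right; left; simp
    · rw [zero_add, one_nsmul]
      exact Or.inr (Or.inl rfl)
  | succ l ih =>
    intro B y hB h0 hs hI
    obtain ⟨x, hx⟩ := inv_step hB hF (by omega) hI
    obtain ⟨B', hBB', hfin, hsym, havoid, hmem⟩ := ih (B ∪ {x, -x}) (y - x) (hB.union (by simp))
      (Or.inl h0) (by
        rintro b (hb | hb | hb)
        · exact Or.inl (hs b hb)
        · subst hb; exact Or.inr (Or.inr rfl)
        · rw [Set.mem_singleton_iff] at hb
          subst hb; right; left; simp) hx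
    refine ⟨B', Set.subset_union_left.trans hBB', hfin, hsym, havoid, ?_⟩
    rw [succ_nsmul]
    exact ⟨y - x, hmem, x, hBB' (Or.inr (Or.inl rfl)), by simp⟩


lemma exists_chain {α : Type*} (P : ℕ → α → α → Prop) (a0 : α) (hP : ∀ n a, ∃ a', P n a a') :
    ∃ f : ℕ → α, f 0 = a0 ∧ ∀ n, P n (f n) (f (n + 1)) := by
  choose g hg using hP
  exact ⟨fun n => Nat.rec a0 (fun n a => g n a) n, rfl, fun n => hg n _⟩

/-- A state of the greedy construction: a finite symmetric set containing `0`, whose `h`-fold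
sumset avoids a thin forbidden set. -/
structure State (h : ℕ) where
  B : Set G
  F : Set G
  fB : B.Finite
  fF : Thin F
  z : (0 : G) ∈ B
  sym : ∀ b ∈ B, -b ∈ B
  avoid : ∀ x ∈ h • B, x ∉ F

lemma union_facts {B : ℕ → Set G} (hmono : Monotone B) (j : ℕ) {x : G}
    (hx : x ∈ j • (⋃ n, B n)) : ∃ n, x ∈ j • B n := by
  induction j generalizing x with
  | zero => exact ⟨0, by simpa using hx⟩
  | succ j ih =>
    rw [succ_nsmul] at hx
    obtain ⟨y, hy, z, hz, rfl⟩ := hx
    obtain ⟨n, hn⟩ := ih hy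
    obtain ⟨m, hm⟩ := Set.mem_iUnion.1 hz
    refine ⟨max n m, ?_⟩
    rw [succ_nsmul]
    have key : ∀ (i : ℕ) {X Y : Set G}, X ⊆ Y → i • X ⊆ i • Y := by
      intro i X Y hXY
      induction i with
      | zero => simp
      | succ i ih => rw [succ_nsmul, succ_nsmul]; exact Set.add_subset_add ih hXY
    exact ⟨y, key j (hmono (le_max_left n m)) hn, z, hmono (le_max_right n m) hm, rfl⟩

lemma nsmul_mono {X Y : Set G} (hXY : X ⊆ Y) (i : ℕ) : i • X ⊆ i • Y := by
  induction i with
  | zero => simp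
  | succ i ih => rw [succ_nsmul, succ_nsmul]; exact Set.add_subset_add ih hXY

lemma nsmul_singleton_zero (j : ℕ) : j • ({0} : Set G) = {0} := by
  induction j with
  | zero => simp [Set.singleton_zero]
  | succ j ih => rw [succ_nsmul, ih]; simp

/-- For a thin symmetric set `S` without `0`, and every `h ≥ 1`, the complement of `S` is the
`h`-fold sumset of a symmetric set containing `0` whose `(h+1)`-fold sumset is everything. -/
lemma exists_B_thin (S : Set G) (hS : Thin S) (h0 : (0 : G) ∉ S) (hsym : ∀ x ∈ S, -x ∈ S)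
    (h : ℕ) (hh : 1 ≤ h) : ∃ B : Set G, (0 : G) ∈ B ∧ (∀ b ∈ B, -b ∈ B) ∧ h • B = Sᶜ ∧
      (h + 1) • B = Set.univ := by
  obtain ⟨k, rfl⟩ : ∃ k, h = k + 1 := ⟨h - 1, by omega⟩
  obtain ⟨e, he⟩ := exists_surjective_nat G
  have step : ∀ (n : ℕ) (s : State (k + 1)), ∃ s' : State (k + 1),
      s.F = S → (s'.F = S ∧ s.B ⊆ s'.B ∧ (e n ∉ S → e n ∈ (k + 1) • s'.B) ∧
        (e n ∈ S → e n ∈ (k + 1 + 1) • s'.B)) := by
    intro n s
    by_cases hF : s.F = S
    · by_cases hn : e n ∈ S
      · have hI : Inv s.B S (k + 1) (k + 1 + 1) (e n) := by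
          intro t j hj b hb
          have ht : t = 0 := by
            by_contra hcon
            have : 1 ≤ t.natAbs := by omega
            have : 1 * (k + 1 + 1) ≤ t.natAbs * (k + 1 + 1) := Nat.mul_le_mul_right _ this
            omega
          subst ht
          rw [zero_smul, add_zero, ← hF]
          exact s.avoid b (nsmul_mono_of_zero_mem s.z (by simpa using hj) hb)
        obtain ⟨B', h1, h2, h3, h4, h5⟩ := extend_aux hS (k + 1) s.B (e n) s.fB s.z s.sym hI
        exact ⟨⟨B', S, h2, hS, h1 s.z, h3, h4⟩, fun _ => ⟨rfl, h1, fun h => absurd hn h,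
          fun _ => h5⟩⟩
      · have hI : Inv s.B S (k + 1) (k + 1) (e n) := by
          intro t j hj b hb
          have ht : t.natAbs = 0 ∨ t.natAbs = 1 := by
            by_contra hcon
            push Not at hcon
            have : 2 ≤ t.natAbs := by omega
            have : 2 * (k + 1) ≤ t.natAbs * (k + 1) := Nat.mul_le_mul_right _ this
            omega
          rcases ht with ht | ht
          · have : t = 0 := by omega
            subst this
            rw [zero_smul, add_zero, ← hF]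
            exact s.avoid b (nsmul_mono_of_zero_mem s.z (by simpa using hj) hb)
          · rw [ht, one_mul] at hj
            have hj0 : j = 0 := by omega
            subst hj0
            have hb0 : b = 0 := by simpa using hb
            subst hb0
            rcases Int.natAbs_eq t with h1 | h1
            · rw [ht] at h1; rw [h1]; simpa using hn
            · rw [ht] at h1; rw [h1]
              intro hmem
              apply hn
              have := hsym _ hmem
              simpa using this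
        obtain ⟨B', h1, h2, h3, h4, h5⟩ := extend_aux hS k s.B (e n) s.fB s.z s.sym hI
        exact ⟨⟨B', S, h2, hS, h1 s.z, h3, h4⟩, fun _ => ⟨rfl, h1, fun _ => h5,
          fun h => absurd h hn⟩⟩
    · exact ⟨s, fun h => absurd h hF⟩
  let s0 : State (k + 1) := ⟨{0}, S, by simp, hS, by simp, by simp, by
    intro x hx
    rw [nsmul_singleton_zero, Set.mem_singleton_iff] at hx
    subst hx; exact h0⟩
  obtain ⟨f, hf0, hf⟩ := exists_chain (fun n s s' => s.F = S → (s'.F = S ∧ s.B ⊆ s'.B ∧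
    (e n ∉ S → e n ∈ (k + 1) • s'.B) ∧ (e n ∈ S → e n ∈ (k + 1 + 1) • s'.B))) s0 step
  have hFS : ∀ n, (f n).F = S := by
    intro n
    induction n with
    | zero => rw [hf0]
    | succ n ih => exact (hf n ih).1
  have hmono : Monotone (fun n => (f n).B) :=
    monotone_nat_of_le_succ fun n => (hf n (hFS n)).2.1
  refine ⟨⋃ n, (f n).B, ?_, ?_, ?_, ?_⟩
  · exact Set.mem_iUnion.2 ⟨0, (f 0).z⟩
  · intro b hb
    obtain ⟨n, hn⟩ := Set.mem_iUnion.1 hb
    exact Set.mem_iUnion.2 ⟨n, (f n).sym b hn⟩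
  · apply Set.Subset.antisymm
    · intro x hx
      obtain ⟨n, hn⟩ := union_facts hmono (k + 1) hx
      have := (f n).avoid x hn
      rw [hFS n] at this
      exact this
    · intro x hx
      obtain ⟨n, rfl⟩ := he x
      have := (hf n (hFS n)).2.2.1 hx
      exact nsmul_mono (Set.subset_iUnion (fun n => (f n).B) (n + 1)) _ this
  · rw [Set.eq_univ_iff_forall]
    intro x
    obtain ⟨n, rfl⟩ := he x
    have hsub := nsmul_mono (Set.subset_iUnion (fun n => (f n).B) (n + 1)) (k + 1 + 1)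
    by_cases hn : e n ∈ S
    · exact hsub ((hf n (hFS n)).2.2.2 hn)
    · exact hsub (nsmul_mono_of_zero_mem (f (n + 1)).z (by omega) ((hf n (hFS n)).2.2.1 hn))

/-- A state of the second greedy construction, with a finite forbidden set. -/
structure FState (h : ℕ) where
  B : Set G
  F : Set G
  fB : B.Finite
  fF : F.Finite
  z : (0 : G) ∈ B
  sym : ∀ b ∈ B, -b ∈ B
  avoid : ∀ x ∈ h • B, x ∉ F

/-- For every `h` there is a symmetric set containing `0` whose `(h+1)`-fold sumset is
everything and whose `h`-fold sumset has an infinite complement. -/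
lemma exists_B_infinite (h : ℕ) :
    ∃ B : Set G, (0 : G) ∈ B ∧ (∀ b ∈ B, -b ∈ B) ∧ (h • B)ᶜ.Infinite ∧
      (h + 1) • B = Set.univ := by
  obtain ⟨e, he⟩ := exists_surjective_nat G
  have step : ∀ (n : ℕ) (s : FState h), ∃ s' : FState h,
      (s.B ⊆ s'.B ∧ s.F ⊆ s'.F ∧ e n ∈ (h + 1) • s'.B ∧ ∃ x, x ∈ s'.F ∧ x ∉ s.F) := by
    intro n s
    have hI : Inv s.B s.F h (h + 1) (e n) := by
      intro t j hj b hb
      have ht : t = 0 := by
        by_contra hcon
        have : 1 ≤ t.natAbs := by omega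
        have : 1 * (h + 1) ≤ t.natAbs * (h + 1) := Nat.mul_le_mul_right _ this
        omega
      subst ht
      rw [zero_smul, add_zero]
      exact s.avoid b (nsmul_mono_of_zero_mem s.z (by simpa using hj) hb)
    obtain ⟨B', h1, h2, h3, h4, h5⟩ :=
      extend_aux (thin_of_finite s.fF) h s.B (e n) s.fB s.z s.sym hI
    obtain ⟨x, hx⟩ := ((finite_nsmul h2 h).union s.fF).exists_notMem
    rw [Set.mem_union, not_or] at hx
    refine ⟨⟨B', insert x s.F, h2, s.fF.insert x, h1 s.z, h3, ?_⟩, h1,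
      Set.subset_insert _ _, h5, x, Set.mem_insert _ _, hx.2⟩
    intro y hy
    rw [Set.mem_insert_iff, not_or]
    refine ⟨?_, h4 y hy⟩
    rintro rfl
    exact hx.1 hy
  let s0 : FState h := ⟨{0}, ∅, by simp, by simp, by simp, by simp, by simp⟩
  obtain ⟨f, hf0, hf⟩ := exists_chain (fun n s s' => s.B ⊆ s'.B ∧ s.F ⊆ s'.F ∧
    e n ∈ (h + 1) • s'.B ∧ ∃ x, x ∈ s'.F ∧ x ∉ s.F) s0 step
  have hmono : Monotone (fun n => (f n).B) := monotone_nat_of_le_succ fun n => (hf n).1
  have hmonoF : Monotone (fun n => (f n).F) := monotone_nat_of_le_succ fun n => (hf n).2.1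
  refine ⟨⋃ n, (f n).B, ?_, ?_, ?_, ?_⟩
  · exact Set.mem_iUnion.2 ⟨0, (f 0).z⟩
  · intro b hb
    obtain ⟨n, hn⟩ := Set.mem_iUnion.1 hb
    exact Set.mem_iUnion.2 ⟨n, (f n).sym b hn⟩
  · choose x hx hx' using fun n => (hf n).2.2.2
    refine Set.infinite_of_injective_forall_mem (f := x) ?_ ?_
    · intro a b hab
      by_contra hne
      rcases lt_or_gt_of_ne hne with hlt | hlt
      · exact hx' b (hab ▸ hmonoF (Nat.succ_le_of_lt hlt) (hx a))
      · exact hx' a (hab ▸ hmonoF (Nat.succ_le_of_lt hlt) (hx b))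
    · intro n hmem
      obtain ⟨m, hm⟩ := union_facts hmono h hmem
      have h1 : x n ∈ h • (f (max m (n + 1))).B := nsmul_mono (hmono (le_max_left _ _)) _ hm
      exact (f (max m (n + 1))).avoid _ h1 (hmonoF (le_max_right _ _) (hx n))
  · rw [Set.eq_univ_iff_forall]
    intro x
    obtain ⟨n, rfl⟩ := he x
    have := (hf n).2.2.1
    exact nsmul_mono (Set.subset_iUnion (fun n => (f n).B) (n + 1)) _ this

/-! ### spheres and sumsets -/

/-- the symmetric closure -/
def Sy (A : Set G) : Set G := {x | x ∈ A ∨ -x ∈ A}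

lemma isSumOf_iff (A : Set G) (r : ℕ) (x : G) : IsSumOf A r x ↔ x ∈ r • Sy A := by
  induction r generalizing x with
  | zero =>
    constructor
    · rintro ⟨f, -, h⟩
      have : x = 0 := by rw [← h]; simp
      subst this; simp
    · intro h
      have : x = 0 := by simpa using h
      subst this
      exact ⟨fun i => i.elim0, fun i => i.elim0, by simp⟩
  | succ r ih =>
    rw [succ_nsmul]
    constructor
    · rintro ⟨f, hf, h⟩
      rw [Fin.sum_univ_castSucc] at h
      exact ⟨_, (ih _).1 ⟨fun i => f i.castSucc, fun i => hf _, rfl⟩, f (Fin.last r), hf _, h⟩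
    · rintro ⟨y, hy, z, hz, rfl⟩
      obtain ⟨f, hf, rfl⟩ := (ih y).2 hy
      refine ⟨Fin.snoc f z, ?_, ?_⟩
      · intro i
        refine Fin.lastCases ?_ (fun j => ?_) i
        · simp only [Fin.snoc_last]; exact hz
        · simp only [Fin.snoc_castSucc]; exact hf j
      · rw [Fin.sum_univ_castSucc]; simp

lemma mem_insert_zero_nsmul {Y : Set G} (r : ℕ) (x : G) :
    x ∈ r • (insert 0 Y : Set G) ↔ ∃ q ≤ r, x ∈ q • Y := by
  induction r generalizing x with
  | zero => simp
  | succ r ih =>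
    rw [succ_nsmul]
    constructor
    · rintro ⟨y, hy, z, hz, rfl⟩
      obtain ⟨q, hq, hyq⟩ := (ih y).1 hy
      rcases hz with hz | hz
      · subst hz; exact ⟨q, by omega, by simpa using hyq⟩
      · exact ⟨q + 1, by omega, by rw [succ_nsmul]; exact ⟨y, hyq, z, hz, rfl⟩⟩
    · rintro ⟨q, hq, hx⟩
      rcases Nat.lt_or_ge r q with h | h
      · have : q = r + 1 := by omega
        subst this
        rw [succ_nsmul] at hx
        obtain ⟨y, hy, z, hz, rfl⟩ := hx
        exact ⟨y, (ih y).2 ⟨r, le_rfl, hy⟩, z, Or.inr hz, rfl⟩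
      · exact ⟨x, (ih x).2 ⟨q, h, hx⟩, 0, Or.inl rfl, by simp⟩

/-- the set `A ∪ (-A) ∪ {0}` -/
def Cl (A : Set G) : Set G := insert 0 (Sy A)

lemma mem_Cl_nsmul (A : Set G) (r : ℕ) (x : G) :
    x ∈ r • Cl A ↔ ∃ q ≤ r, IsSumOf A q x := by
  rw [Cl, mem_insert_zero_nsmul]
  simp only [isSumOf_iff]

lemma zero_mem_Cl (A : Set G) : (0 : G) ∈ Cl A := Or.inl rfl

lemma sym_Cl (A : Set G) : ∀ b ∈ Cl A, -b ∈ Cl A := by
  rintro b (hb | hb)
  · subst hb; left; simp
  · right
    rcases hb with h | h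
    · right; simpa using h
    · left; exact h

lemma mem_sphere_zero (A : Set G) (x : G) : x ∈ sphere A 0 ↔ x = 0 := by
  unfold sphere
  constructor
  · rintro ⟨⟨f, -, h⟩, -⟩
    rw [← h]; simp
  · rintro rfl
    exact ⟨⟨fun i => i.elim0, fun i => i.elim0, by simp⟩, fun q hq => absurd hq (by omega)⟩

lemma mem_sphere_succ (A : Set G) (r : ℕ) (x : G) :
    x ∈ sphere A (r + 1) ↔ x ∈ (r + 1) • Cl A ∧ x ∉ r • Cl A := by
  rw [mem_Cl_nsmul, mem_Cl_nsmul]
  constructor
  · rintro ⟨h1, h2⟩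
    refine ⟨⟨r + 1, le_rfl, h1⟩, ?_⟩
    rintro ⟨q, hq, h⟩
    exact h2 q (by omega) h
  · rintro ⟨⟨q, hq, h⟩, h2⟩
    have hq' : q = r + 1 := by
      by_contra hne
      exact h2 ⟨q, by omega, h⟩
    subst hq'
    refine ⟨h, fun q hq h' => h2 ⟨q, by omega, h'⟩⟩

/-- Structure of transitions in terms of sumsets. -/
lemma HasTransition.struct {A : Set G} {r : ℕ} {S : Set G} (hT : HasTransition A r S) :
    1 ≤ r ∧ (r - 1) • Cl A = Sᶜ ∧ r • Cl A = Set.univ := by
  obtain ⟨hinf, hgen, hS, hne, hbig⟩ := hT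
  have huniv : ∀ x : G, ∃ q : ℕ, x ∈ q • Cl A := by
    intro x
    obtain ⟨q, hq⟩ := hgen x
    exact ⟨q, (mem_Cl_nsmul A q x).2 ⟨q, le_rfl, hq⟩⟩
  have hruniv : r • Cl A = Set.univ := by
    rw [Set.eq_univ_iff_forall]
    intro x
    by_contra hx
    have key : ∀ k, x ∉ (r + k) • Cl A := by
      intro k
      induction k with
      | zero => exact hx
      | succ k ih =>
        intro h
        have : x ∈ sphere A (r + k + 1) := (mem_sphere_succ A (r + k) x).2 ⟨h, ih⟩
        rw [hbig (r + k + 1) (by omega)] at this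
        exact this
    obtain ⟨q, hq⟩ := huniv x
    rcases Nat.le_total q r with h | h
    · exact hx (nsmul_mono_of_zero_mem (zero_mem_Cl A) h hq)
    · obtain ⟨k, rfl⟩ := Nat.exists_eq_add_of_le h
      exact key k hq
  have hr : 1 ≤ r := by
    by_contra hr
    have hr0 : r = 0 := by omega
    subst hr0
    rw [Set.eq_univ_iff_forall] at hruniv
    have := hruniv (1, 0)
    simp at this
  refine ⟨hr, ?_, hruniv⟩
  obtain ⟨k, rfl⟩ : ∃ k, r = k + 1 := ⟨r - 1, by omega⟩
  rw [Nat.add_sub_cancel]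
  ext x
  rw [← hS, Set.mem_compl_iff, mem_sphere_succ, hruniv]
  simp

/-- Conversely, symmetric sets containing `0` give transitions. -/
lemma hasTransition_of {B : Set G} (h0 : (0 : G) ∈ B) (hs : ∀ b ∈ B, -b ∈ B) {h : ℕ} (hh : 1 ≤ h)
    {S : Set G} (hS : h • B = Sᶜ) (hne : S.Nonempty) (hu : (h + 1) • B = Set.univ) :
    HasTransition B (h + 1) S := by
  have hCl : Cl B = B := by
    ext x
    constructor
    · rintro (hx | hx | hx)
      · subst hx; exact h0
      · exact hx
      · simpa using hs _ hx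
    · intro hx; exact Or.inr (Or.inl hx)
  have hBinf : B.Infinite := by
    intro hfin
    have := finite_nsmul hfin (h + 1)
    rw [hu] at this
    exact Set.infinite_univ this
  refine ⟨hBinf, ?_, ?_, hne, ?_⟩
  · intro x
    have hx : x ∈ (h + 1) • Cl B := by rw [hCl, hu]; trivial
    obtain ⟨q, -, hq⟩ := (mem_Cl_nsmul B (h + 1) x).1 hx
    exact ⟨q, hq⟩
  · ext x
    rw [mem_sphere_succ, hCl, hu, hS]
    simp
  · intro q hq
    obtain ⟨k, rfl⟩ : ∃ k, q = k + 1 := ⟨q - 1, by omega⟩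
    rw [Set.eq_empty_iff_forall_notMem]
    intro x hx
    rw [mem_sphere_succ, hCl] at hx
    apply hx.2
    have : (h + 1) • B ⊆ k • B := nsmul_mono_of_zero_mem h0 (by omega)
    rw [hu] at this
    exact this trivial

lemma exists_transition_iff (S : Set G) {r : ℕ} (hr : 2 ≤ r) :
    (∃ A, HasTransition A r S) ↔
      (S.Nonempty ∧ ∃ B : Set G, (0 : G) ∈ B ∧ (∀ b ∈ B, -b ∈ B) ∧ (r - 1) • B = Sᶜ ∧
        r • B = Set.univ) := by
  constructor
  · rintro ⟨A, hA⟩
    obtain ⟨h1, h2, h3⟩ := hA.struct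
    exact ⟨hA.2.2.2.1, Cl A, zero_mem_Cl A, sym_Cl A, h2, h3⟩
  · rintro ⟨hne, B, h0, hs, h1, h2⟩
    obtain ⟨k, rfl⟩ : ∃ k, r = k + 1 := ⟨r - 1, by omega⟩
    exact ⟨B, hasTransition_of h0 hs (by omega) (by simpa using h1) hne h2⟩

lemma sym_nsmul {B : Set G} (hs : ∀ b ∈ B, -b ∈ B) (i : ℕ) : ∀ b ∈ i • B, -b ∈ i • B := by
  induction i with
  | zero => intro b hb; simpa using hb
  | succ i ih =>
    rw [succ_nsmul]
    rintro b ⟨x, hx, y, hy, rfl⟩
    exact ⟨-x, ih x hx, -y, hs y hy, by simp [add_comm]⟩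

lemma transition_one_iff (S : Set G) : (∃ A, HasTransition A 1 S) ↔ S = {0}ᶜ := by
  constructor
  · rintro ⟨A, hA⟩
    obtain ⟨-, h2, -⟩ := hA.struct
    simp only [Nat.sub_self, zero_nsmul] at h2
    rw [← compl_compl S, ← h2, ← Set.singleton_zero]
  · rintro rfl
    refine ⟨Set.univ, Set.infinite_univ, ?_, ?_, ⟨(1, 0), by simp⟩, ?_⟩
    · intro x
      exact ⟨1, fun _ => x, fun _ => Or.inl trivial, by simp⟩
    · ext x
      have h1 : Cl (Set.univ : Set G) = Set.univ := by
        ext y; simp [Cl, Sy]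
      rw [show (1 : ℕ) = 0 + 1 from rfl, mem_sphere_succ, h1]
      simp
    · intro q hq
      obtain ⟨k, rfl⟩ : ∃ k, q = k + 1 := ⟨q - 1, by omega⟩
      rw [Set.eq_empty_iff_forall_notMem]
      intro x hx
      rw [mem_sphere_succ] at hx
      apply hx.2
      have h1 : Cl (Set.univ : Set G) = Set.univ := by
        ext y; simp [Cl, Sy]
      have : 1 • Cl (Set.univ : Set G) ⊆ k • Cl (Set.univ : Set G) :=
        nsmul_mono_of_zero_mem (zero_mem_Cl _) (by omega)
      rw [one_nsmul] at this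
      exact this (by rw [h1]; trivial)

/-- necessary conditions -/
lemma necessary {A S : Set G} {r : ℕ} (hr : 2 ≤ r) (hA : HasTransition A r S) :
    S.Nonempty ∧ (0 : G) ∉ S ∧ (∀ x ∈ S, -x ∈ S) ∧ ∀ g : G, ∃ x ∉ S, ∃ y ∉ S, x + y = g := by
  obtain ⟨h1, h2, h3⟩ := hA.struct
  have hc : ∀ x, x ∈ (r - 1) • Cl A ↔ x ∉ S := by
    intro x; rw [h2]; rfl
  refine ⟨hA.2.2.2.1, ?_, ?_, ?_⟩
  · exact (hc 0).1 (zero_mem_nsmul (zero_mem_Cl A) _)
  · intro x hx
    by_contra hcon
    have := sym_nsmul (sym_Cl A) (r - 1) _ ((hc _).2 hcon)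
    rw [neg_neg] at this
    exact (hc x).1 this hx
  · intro g
    have hg : g ∈ ((r - 1) + (r - 1)) • Cl A :=
      nsmul_mono_of_zero_mem (zero_mem_Cl A) (by omega : r ≤ (r - 1) + (r - 1)) (by rw [h3]; trivial)
    rw [add_nsmul] at hg
    obtain ⟨x, hx, y, hy, hxy⟩ := hg
    exact ⟨x, (hc x).1 hx, y, (hc y).1 hy, hxy⟩

lemma transition_two_iff (S : Set G) : (∃ A, HasTransition A 2 S) ↔
    (S.Nonempty ∧ (0 : G) ∉ S ∧ (∀ x ∈ S, -x ∈ S) ∧ ∀ g : G, ∃ x ∉ S, ∃ y ∉ S, x + y = g) := by
  constructor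
  · rintro ⟨A, hA⟩
    exact necessary le_rfl hA
  · rintro ⟨hne, h0, hs, hg⟩
    rw [exists_transition_iff S le_rfl]
    refine ⟨hne, Sᶜ, h0, ?_, by simp, ?_⟩
    · intro b hb hb'
      exact hb (by simpa using hs _ hb')
    · rw [Set.eq_univ_iff_forall]
      intro x
      obtain ⟨a, ha, b, hb, rfl⟩ := hg x
      rw [two_nsmul]
      exact ⟨a, ha, b, hb, rfl⟩

lemma transition_thin (S : Set G) (hS : Thin S) (hne : S.Nonempty) (h0 : (0 : G) ∉ S)
    (hs : ∀ x ∈ S, -x ∈ S) {r : ℕ} (hr : 2 ≤ r) : ∃ A, HasTransition A r S := by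
  rw [exists_transition_iff S hr]
  obtain ⟨B, hB0, hBs, hB, hB'⟩ := exists_B_thin S hS h0 hs (r - 1) (by omega)
  exact ⟨hne, B, hB0, hBs, hB, by rwa [Nat.sub_add_cancel (by omega)] at hB'⟩

lemma transition_finite_iff (S : Set G) (hS : S.Finite) (r : ℕ) : (∃ A, HasTransition A r S) ↔
    (2 ≤ r ∧ S.Nonempty ∧ (0 : G) ∉ S ∧ ∀ x ∈ S, -x ∈ S) := by
  constructor
  · rintro ⟨A, hA⟩
    have h1 := hA.struct.1
    have hr : 2 ≤ r := by
      by_contra hcon
      have : r = 1 := by omega
      subst this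
      have := (transition_one_iff S).1 ⟨A, hA⟩
      subst this
      exact (Set.finite_singleton (0 : G)).infinite_compl hS
    obtain ⟨a, b, c, -⟩ := necessary hr hA
    exact ⟨hr, a, b, c⟩
  · rintro ⟨hr, hne, h0, hs⟩
    exact transition_thin S (thin_of_finite hS) hne h0 hs hr

/-- the radii minus one are closed under divisors -/
lemma transition_dvd {S : Set G} {h d : ℕ} (hd : d ∣ h) (hh : 1 ≤ h)
    (hA : ∃ A, HasTransition A (h + 1) S) : ∃ A, HasTransition A (d + 1) S := by
  obtain ⟨e, rfl⟩ := hd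
  have hd1 : 1 ≤ d := Nat.pos_of_ne_zero (by rintro rfl; simp at hh)
  have he1 : 1 ≤ e := Nat.pos_of_ne_zero (by rintro rfl; simp at hh)
  rw [exists_transition_iff S (by omega)] at hA ⊢
  obtain ⟨hne, B, h0, hs, h1, h2⟩ := hA
  simp only [Nat.add_sub_cancel] at h1 ⊢
  refine ⟨hne, e • B, zero_mem_nsmul h0 _, sym_nsmul hs _, ?_, ?_⟩
  · rw [← mul_nsmul, mul_comm, h1]
  · rw [Set.eq_univ_iff_forall]
    intro x
    rw [← mul_nsmul]
    have hle : d * e + 1 ≤ e * (d + 1) := by
      rw [mul_add, mul_one, mul_comm e d]; omega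
    exact nsmul_mono_of_zero_mem h0 hle (by rw [h2]; trivial)

theorem result :
    -- (a) the pairs that occur as phase transitions
    (∀ (r : ℕ) (s : ℕ∞), (∃ A S : Set G, HasTransition A r S ∧ S.encard = s) ↔
      ((r = 1 ∧ s = ⊤) ∨ (2 ≤ r ∧ 1 ≤ s))) ∧
    -- (b) the sets that occur as transition sets
    (∀ S : Set G, (∃ (A : Set G) (r : ℕ), HasTransition A r S) ↔ (S = {0}ᶜ ∨ CoBasis S)) ∧
    -- the radii realised by a finite set
    (∀ S : Set G, S.Finite → ∀ r : ℕ, (∃ A, HasTransition A r S) ↔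
      (2 ≤ r ∧ S.Nonempty ∧ (0 : G) ∉ S ∧ ∀ x ∈ S, -x ∈ S)) ∧
    -- the radii realised by the complement of `0`
    (∀ r : ℕ, (∃ A : Set G, HasTransition A r {0}ᶜ) ↔ r = 1) ∧
    -- all radii `≥ 2` are realised by every thin set
    (∀ S : Set G, Thin S → S.Nonempty → (0 : G) ∉ S → (∀ x ∈ S, -x ∈ S) → ∀ r : ℕ,
      (∃ A, HasTransition A r S) ↔ 2 ≤ r) ∧
    -- the radii realised by any other transition set
    (∀ S : Set G, CoBasis S →
      (∃ A, HasTransition A 2 S) ∧ (¬ ∃ A, HasTransition A 1 S) ∧ (¬ ∃ A, HasTransition A 0 S) ∧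
      (∀ h d : ℕ, 1 ≤ h → d ∣ h → (∃ A, HasTransition A (h + 1) S) →
        ∃ A, HasTransition A (d + 1) S) ∧
      ∀ r : ℕ, 2 ≤ r → ((∃ A, HasTransition A r S) ↔
        ∃ B : Set G, (0 : G) ∈ B ∧ (∀ b ∈ B, -b ∈ B) ∧ (r - 1) • B = Sᶜ ∧ r • B = Set.univ)) := by
  have hnot : ¬ (∀ g : G, ∃ x ∉ ({0}ᶜ : Set G), ∃ y ∉ ({0}ᶜ : Set G), x + y = g) := by
    intro h
    obtain ⟨x, hx, y, hy, hxy⟩ := h (1, 0)
    simp only [Set.mem_compl_iff, Set.mem_singleton_iff, not_not] at hx hy
    subst hx; subst hy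
    simp [Prod.ext_iff] at hxy
  have hfam : ∀ S : Set G, (∃ (A : Set G) (r : ℕ), HasTransition A r S) ↔
      (S = {0}ᶜ ∨ CoBasis S) := by
    intro S
    constructor
    · rintro ⟨A, r, hA⟩
      have h1 := hA.struct.1
      rcases Nat.lt_or_ge r 2 with hr | hr
      · have : r = 1 := by omega
        subst this
        exact Or.inl ((transition_one_iff S).1 ⟨A, hA⟩)
      · exact Or.inr (necessary hr hA)
    · rintro (h | h)
      · obtain ⟨A, hA⟩ := (transition_one_iff S).2 h
        exact ⟨A, 1, hA⟩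
      · obtain ⟨A, hA⟩ := (transition_two_iff S).2 h
        exact ⟨A, 2, hA⟩
  refine ⟨?_, hfam, transition_finite_iff, ?_, ?_, ?_⟩
  · intro r s
    constructor
    · rintro ⟨A, S, hA, rfl⟩
      have h1 := hA.struct.1
      rcases Nat.lt_or_ge r 2 with hr | hr
      · have : r = 1 := by omega
        subst this
        left
        refine ⟨rfl, ?_⟩
        rw [(transition_one_iff S).1 ⟨A, hA⟩]
        exact Set.encard_eq_top ((Set.finite_singleton (0 : G)).infinite_compl)
      · right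
        exact ⟨hr, Set.one_le_encard_iff_nonempty.2 hA.2.2.2.1⟩
    · rintro (⟨rfl, rfl⟩ | ⟨hr, hs⟩)
      · obtain ⟨A, hA⟩ := (transition_one_iff {0}ᶜ).2 rfl
        exact ⟨A, {0}ᶜ, hA, Set.encard_eq_top ((Set.finite_singleton (0 : G)).infinite_compl)⟩
      · by_cases htop : s = ⊤
        · subst htop
          obtain ⟨B, hB0, hBs, hBi, hBu⟩ := exists_B_infinite (r - 1)
          obtain ⟨A, hA⟩ := (exists_transition_iff ((r - 1) • B)ᶜ hr).2
            ⟨hBi.nonempty, B, hB0, hBs, by simp, by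
              rwa [Nat.sub_add_cancel (by omega)] at hBu⟩
          exact ⟨A, _, hA, Set.encard_eq_top hBi⟩
        · obtain ⟨n, rfl⟩ := ENat.ne_top_iff_exists.1 htop
          have hn : 1 ≤ n := by exact_mod_cast hs
          -- a symmetric set of size n without 0
          have hex : ∃ S : Set G, S.Finite ∧ S.Nonempty ∧ (0 : G) ∉ S ∧ (∀ x ∈ S, -x ∈ S) ∧
              S.encard = n := by
            have hT : ∃ T : Finset ℤ, T.card = n ∧ ∀ a ∈ T, -a ∈ T := by
              rcases Nat.even_or_odd' n with ⟨k, hk | hk⟩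
              · refine ⟨(Finset.Icc (-(k : ℤ)) k).erase 0, ?_, ?_⟩
                · rw [Finset.card_erase_of_mem (by simp)]
                  simp only [Int.card_Icc]; omega
                · intro a ha
                  simp only [Finset.mem_erase, Finset.mem_Icc] at ha ⊢
                  omega
              · refine ⟨Finset.Icc (-(k : ℤ)) k, ?_, ?_⟩
                · simp only [Int.card_Icc]; omega
                · intro a ha
                  simp only [Finset.mem_Icc] at ha ⊢
                  omega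
            obtain ⟨T, hTc, hTs⟩ := hT
            refine ⟨((T ×ˢ ({1} : Finset (ZMod 2)) : Finset G) : Set G), Finset.finite_toSet _,
              ?_, ?_, ?_, ?_⟩
            · rw [Finset.coe_nonempty]
              refine Finset.Nonempty.product ?_ (Finset.singleton_nonempty 1)
              rw [← Finset.card_pos]; omega
            · simp
            · rintro ⟨a, b⟩ hab
              simp only [Finset.coe_product, Finset.coe_singleton, Set.mem_prod, Finset.mem_coe,
                Set.mem_singleton_iff] at hab ⊢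
              refine ⟨hTs a hab.1, ?_⟩
              simp only [Prod.snd_neg, hab.2]; decide
            · rw [Set.encard_coe_eq_coe_finsetCard]
              simp [hTc]
          obtain ⟨S, hSf, hSn, hS0, hSs, hSc⟩ := hex
          obtain ⟨A, hA⟩ := (transition_finite_iff S hSf r).2 ⟨hr, hSn, hS0, hSs⟩
          exact ⟨A, S, hA, hSc⟩
  · intro r
    constructor
    · rintro ⟨A, hA⟩
      have h1 := hA.struct.1
      by_contra hne
      exact hnot (necessary (by omega) hA).2.2.2
    · rintro rfl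
      exact (transition_one_iff _).2 rfl
  · intro S hS hne h0 hs r
    refine ⟨?_, fun hr => transition_thin S hS hne h0 hs hr⟩
    rintro ⟨A, hA⟩
    have h1 := hA.struct.1
    by_contra hcon
    have hr : r = 1 := by omega
    subst hr
    have h2 := (transition_one_iff S).1 ⟨A, hA⟩
    subst h2
    obtain ⟨x, hx⟩ := hS {(1, 0), (1, (1, 0))} (by simp) (by simp)
    have hx1 := hx (1, 0) (by simp)
    have hx2 := hx (1, (1, 0)) (by simp)
    simp only [one_smul, add_zero, Set.mem_compl_iff, Set.mem_singleton_iff,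
      not_not] at hx1 hx2
    subst hx1
    simp [Prod.ext_iff] at hx2
  · intro S hmem
    have hS : S ≠ {0}ᶜ := by
      rintro rfl
      exact hnot hmem.2.2.2
    refine ⟨(transition_two_iff S).2 hmem, ?_, ?_, ?_, ?_⟩
    · intro h; exact hS ((transition_one_iff S).1 h)
    · rintro ⟨A, hA⟩
      have := hA.struct.1
      omega
    · intro h d hh hd hA
      exact transition_dvd hd hh hA
    · intro r hr
      rw [exists_transition_iff S hr]
      exact ⟨fun h => h.2, fun h => ⟨hmem.1, h⟩⟩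

end Pool.Agent.Results.MP_a61939_al.PhaseTransitions
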